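import Mathlib
import Pool.Agent.Run7.h842.AF.C

set_option autoImplicit false

/-!
# MP_acab80_co: the maximal number of complete extensions of an argumentation framework

`σ_max(n) = sig n`, that is `1` for `n ≤ 1`, `3^(n/2)` for even `n ≥ 2` and `4 · 3^((n-3)/2)` for odd `n ≥ 3`.

Definitions (`Pool/Agent/Run7/h842/AF/A.lean`): a framework is a relation `R` on a finite type `A`, `R a b`:
`a` attacks `b` (self-attacks allowed); `ConflictFree R S`, `Defends R S a`, `Admissible R S`,
`Complete R S` as in the problem file; `numComplete R` is the number of complete extensions.

Proof of the upper bound, by induction on the number of arguments. If a nonempty set `I` of arguments without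
attacks between distinct members has a neighbourhood `A₀` with `|A₀| ≤ |I|`, then a complete extension is
determined by the labels (in, out, undecided) on `A₀` and by its trace on the remaining arguments, which is a
complete extension of a framework which depends only on the labels on `A₀`; this gives at most
`3^|A₀| · sig(n - |I| - |A₀|) ≤ sig n`. Otherwise Hall's theorem gives a permutation which moves every argument
to a neighbour, and even the number of independent sets is at most `sig n`, by removing the cycles of the
permutation one by one.
-/

open Run7.h842.AF

namespace Pool.Agent.Results.MP_acab80_co.MaximalNumber

/-- The maximal number of complete extensions of an argumentation framework with `n` arguments. -/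
theorem result (n : ℕ) : IsGreatest {k : ℕ | ∃ (A : Type) (_ : Fintype A) (R : A → A → Prop),
    Fintype.card A = n ∧ numComplete R = k}
    (if n ≤ 1 then 1 else if n % 2 = 0 then 3 ^ (n / 2) else 4 * 3 ^ ((n - 3) / 2)) :=
  main n

end Pool.Agent.Results.MP_acab80_co.MaximalNumber
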